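import Pool.Agent.H2.Core.Levi

/-!
# Bounds for the Levi form, and the gluing function
-/

set_option autoImplicit false

open Filter Topology Set Metric
open scoped ContDiff

namespace Pool.Agent.H2.Core

variable {E : Type*} [NormedAddCommGroup E] [NormedSpace ℂ E]

theorem levi_smul (g : E → ℝ) (x v : E) (t : ℝ) : levi g x ((t : ℂ) • v) = t ^ 2 * levi g x v := by
  have h1 : ((t : ℂ) • v) = t • v := by simp
  have h2 : Complex.I • (t • v) = t • (Complex.I • v) := smul_comm _ _ _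
  unfold levi hess
  rw [h1, h2]
  simp
  ring

theorem levi_sub_le (g h : E → ℝ) (x y v : E) :
    |levi g x v - levi h y v| ≤ ‖fderiv ℝ (fderiv ℝ g) x - fderiv ℝ (fderiv ℝ h) y‖ * ‖v‖ ^ 2 := by
  set A := fderiv ℝ (fderiv ℝ g) x - fderiv ℝ (fderiv ℝ h) y with hA
  have h1 : ∀ w : E, |A w w| ≤ ‖A‖ * ‖w‖ ^ 2 := by
    intro w
    calc |A w w| = ‖A w w‖ := (Real.norm_eq_abs _).symm
      _ ≤ ‖A w‖ * ‖w‖ := (A w).le_opNorm w
      _ ≤ ‖A‖ * ‖w‖ * ‖w‖ := by gcongr; exact A.le_opNorm w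
      _ = ‖A‖ * ‖w‖ ^ 2 := by ring
  have h2 := h1 v
  have h3 := h1 (Complex.I • v)
  have h4 : ‖Complex.I • v‖ = ‖v‖ := by rw [norm_smul]; simp
  rw [h4] at h3
  have h5 : levi g x v - levi h y v = (1 / 4) * (A v v + A (Complex.I • v) (Complex.I • v)) := by
    unfold levi hess
    rw [hA]
    simp
    ring
  rw [h5, abs_mul, abs_of_nonneg (by norm_num : (0:ℝ) ≤ 1 / 4)]
  have h6 : |A v v + A (Complex.I • v) (Complex.I • v)| ≤ |A v v| + |A (Complex.I • v) (Complex.I • v)| :=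
    abs_add_le _ _
  have h7 : 0 ≤ ‖A‖ * ‖v‖ ^ 2 := by positivity
  linarith

theorem levi_zero (x v : E) : levi (fun _ : E => (0:ℝ)) x v = 0 := levi_const 0 x v

theorem levi_le (g : E → ℝ) (x v : E) :
    |levi g x v| ≤ ‖fderiv ℝ (fderiv ℝ g) x‖ * ‖v‖ ^ 2 := by
  have h := levi_sub_le g (fun _ => (0:ℝ)) x x v
  rw [levi_zero, sub_zero] at h
  have h1 : fderiv ℝ (fderiv ℝ fun _ : E => (0:ℝ)) x = 0 := by
    have h1 : fderiv ℝ (fun _ : E => (0:ℝ)) = fun _ => 0 := by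
      funext y
      simp
    rw [h1]
    simp
  rwa [h1, sub_zero] at h

theorem cont_hess {V : Set E} (hV : IsOpen V) {g : E → ℝ} (hg : ContDiffOn ℝ 2 g V) :
    ContinuousOn (fun x => fderiv ℝ (fderiv ℝ g) x) V := by
  have h1 : ContDiffOn ℝ 1 (fderiv ℝ g) V := hg.fderiv_of_isOpen hV (by norm_num)
  have h2 : ContDiffOn ℝ 0 (fderiv ℝ (fderiv ℝ g)) V := h1.fderiv_of_isOpen hV (by norm_num)
  exact h2.continuousOn

theorem levi_bound {V K : Set E} (hV : IsOpen V) {g : E → ℝ} (hg : ContDiffOn ℝ 2 g V)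
    (hK : IsCompact K) (hKV : K ⊆ V) : ∃ C : ℝ, 0 ≤ C ∧ ∀ x ∈ K, ∀ v, |levi g x v| ≤ C * ‖v‖ ^ 2 := by
  have hn : Continuous fun A : E →L[ℝ] E →L[ℝ] ℝ => ‖A‖ :=
    @continuous_norm (E →L[ℝ] E →L[ℝ] ℝ) _
  have h1 : ContinuousOn (fun x => ‖fderiv ℝ (fderiv ℝ g) x‖) K :=
    hn.comp_continuousOn ((cont_hess hV hg).mono hKV)
  obtain ⟨C, hC⟩ := hK.bddAbove_image h1
  refine ⟨max C 0, le_max_right _ _, fun x hx v => (levi_le g x v).trans ?_⟩
  have : ‖fderiv ℝ (fderiv ℝ g) x‖ ≤ max C 0 :=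
    (hC (mem_image_of_mem (fun x => ‖fderiv ℝ (fderiv ℝ g) x‖) hx)).trans (le_max_left C 0)
  gcongr

theorem strict_nbhd [FiniteDimensional ℂ E] {V : Set E} (hV : IsOpen V) {g : E → ℝ}
    (hg : ContDiffOn ℝ 2 g V) {x₁ : E} (hx₁ : x₁ ∈ V) (hpos : ∀ v, v ≠ 0 → 0 < levi g x₁ v) :
    ∃ c : ℝ, 0 < c ∧ ∃ s : ℝ, 0 < s ∧ ball x₁ s ⊆ V ∧
      ∀ x ∈ ball x₁ s, ∀ v, c * ‖v‖ ^ 2 ≤ levi g x v := by
  have : FiniteDimensional ℝ E := FiniteDimensional.complexToReal E
  have : ProperSpace E := FiniteDimensional.proper ℝ E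
  -- the lower bound at `x₁`
  have key : ∃ c : ℝ, 0 < c ∧ ∀ v, 2 * c * ‖v‖ ^ 2 ≤ levi g x₁ v := by
    rcases subsingleton_or_nontrivial E with hE | hE
    · refine ⟨1, one_pos, fun v => ?_⟩
      have : v = 0 := Subsingleton.elim _ _
      subst this
      simp [levi, hess]
    · have hS : IsCompact (sphere (0 : E) 1) := isCompact_sphere 0 1
      have hne : (sphere (0 : E) 1).Nonempty := NormedSpace.sphere_nonempty.2 zero_le_one
      have hcont : ContinuousOn (fun v => levi g x₁ v) (sphere (0:E) 1) := by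
        unfold levi hess
        apply Continuous.continuousOn
        have h1 : Continuous fun v : E => fderiv ℝ (fderiv ℝ g) x₁ v v :=
          ((fderiv ℝ (fderiv ℝ g) x₁).continuous).clm_apply continuous_id
        have h2 : Continuous fun v : E =>
            fderiv ℝ (fderiv ℝ g) x₁ (Complex.I • v) (Complex.I • v) :=
          h1.comp (continuous_const_smul Complex.I)
        exact continuous_const.mul (h1.add h2)
      obtain ⟨v₀, hv₀, hmin⟩ := hS.exists_isMinOn hne hcont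
      have hv₀' : v₀ ≠ 0 := by
        rintro rfl
        simp at hv₀
      refine ⟨levi g x₁ v₀ / 2, half_pos (hpos v₀ hv₀'), fun v => ?_⟩
      rcases eq_or_ne v 0 with rfl | hv
      · simp [levi, hess]
      · have hn : 0 < ‖v‖ := norm_pos_iff.2 hv
        have h1 : v = ((‖v‖ : ℝ) : ℂ) • (((‖v‖⁻¹ : ℝ) : ℂ) • v) := by
          rw [smul_smul, ← Complex.ofReal_mul, mul_inv_cancel₀ hn.ne']
          simp
        have h2 : (((‖v‖⁻¹ : ℝ) : ℂ) • v) ∈ sphere (0:E) 1 := by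
          rw [mem_sphere_zero_iff_norm, norm_smul, Complex.norm_real, norm_inv, norm_norm,
            inv_mul_cancel₀ hn.ne']
        have h3 : levi g x₁ v₀ ≤ levi g x₁ (((‖v‖⁻¹ : ℝ) : ℂ) • v) := hmin h2
        have h4 : levi g x₁ v = ‖v‖ ^ 2 * levi g x₁ (((‖v‖⁻¹ : ℝ) : ℂ) • v) := by
          conv_lhs => rw [h1]
          rw [levi_smul]
        rw [h4]
        nlinarith [sq_nonneg ‖v‖]
  obtain ⟨c, hc, hcv⟩ := key
  have hn : Continuous fun A : E →L[ℝ] E →L[ℝ] ℝ => ‖A‖ :=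
    @continuous_norm (E →L[ℝ] E →L[ℝ] ℝ) _
  have hct := (cont_hess hV hg).continuousAt (hV.mem_nhds hx₁)
  have h1 : ∀ᶠ x in 𝓝 x₁, ‖fderiv ℝ (fderiv ℝ g) x - fderiv ℝ (fderiv ℝ g) x₁‖ < c := by
    have h2 : ContinuousAt (fun x => ‖fderiv ℝ (fderiv ℝ g) x - fderiv ℝ (fderiv ℝ g) x₁‖) x₁ :=
      ContinuousAt.comp (g := fun A : E →L[ℝ] E →L[ℝ] ℝ => ‖A‖) hn.continuousAt
        (hct.sub continuousAt_const)
    apply h2.eventually_lt_const
    have h0 : ‖(0 : E →L[ℝ] E →L[ℝ] ℝ)‖ = 0 := @norm_zero (E →L[ℝ] E →L[ℝ] ℝ) _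
    show ‖fderiv ℝ (fderiv ℝ g) x₁ - fderiv ℝ (fderiv ℝ g) x₁‖ < c
    rw [sub_self, h0]
    exact hc
  obtain ⟨s, hs, hsub⟩ := Metric.eventually_nhds_iff_ball.1 (h1.and (hV.mem_nhds hx₁))
  refine ⟨c, hc, s, hs, fun x hx => (hsub x hx).2, fun x hx v => ?_⟩
  have h3 := levi_sub_le g g x x₁ v
  have h4 := (hsub x hx).1
  have h5 : ‖fderiv ℝ (fderiv ℝ g) x - fderiv ℝ (fderiv ℝ g) x₁‖ * ‖v‖ ^ 2 ≤ c * ‖v‖ ^ 2 := by
    gcongr
  have h6 := hcv v
  have h7 := abs_le.1 (h3.trans h5)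
  linarith [h7.1]

/-! ### the gluing function -/

/-- a smooth convex function which vanishes on `(-∞, 0]` and has derivative in `(0, 1)` on
`(0, ∞)` -/
noncomputable def glue (t : ℝ) : ℝ := ∫ s in (0:ℝ)..t, expNegInvGlue s

theorem glue_hasDeriv (t : ℝ) : HasDerivAt glue (expNegInvGlue t) t := by
  have hc : Continuous expNegInvGlue := (expNegInvGlue.contDiff (n := 0)).continuous
  exact intervalIntegral.integral_hasDerivAt_right (hc.intervalIntegrable 0 t)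
    (hc.stronglyMeasurableAtFilter _ _) hc.continuousAt

theorem deriv_glue : deriv glue = expNegInvGlue := funext fun t => (glue_hasDeriv t).deriv

theorem glue_contDiff : ContDiff ℝ ∞ glue := by
  rw [contDiff_infty_iff_deriv]
  refine ⟨fun t => (glue_hasDeriv t).differentiableAt, ?_⟩
  rw [deriv_glue]
  exact expNegInvGlue.contDiff (n := ⊤)

theorem glue_zero {t : ℝ} (ht : t ≤ 0) : glue t = 0 := by
  unfold glue
  rw [intervalIntegral.integral_symm]
  have : ∫ s in t..(0:ℝ), expNegInvGlue s = ∫ s in t..(0:ℝ), (0:ℝ) := by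
    apply intervalIntegral.integral_congr
    intro s hs
    rw [uIcc_of_le ht] at hs
    simp [expNegInvGlue.zero_of_nonpos hs.2]
  rw [this]
  simp

theorem expNeg_le_one (t : ℝ) : expNegInvGlue t ≤ 1 := by
  unfold expNegInvGlue
  split_ifs with h
  · exact zero_le_one
  · apply Real.exp_le_one_iff.2
    push Not at h
    have := inv_pos.2 h
    linarith

theorem deriv_glue_nonneg (t : ℝ) : 0 ≤ deriv (deriv glue) t := by
  rw [deriv_glue]
  exact expNegInvGlue.monotone.deriv_nonneg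

theorem glue_mono : Monotone glue :=
  monotone_of_deriv_nonneg (fun t => (glue_hasDeriv t).differentiableAt)
    fun t => by rw [deriv_glue]; exact expNegInvGlue.nonneg t

end Pool.Agent.H2.Core
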