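import Pool.Agent.H2.Core.Main

/-!
# Maximal components of the core
-/

set_option autoImplicit false

open Filter Topology Set Metric
open scoped ContDiff Manifold

namespace Pool.Agent.H2.Core

variable {n : ℕ} {M : Type*} [TopologicalSpace M] [ChartedSpace (EuclideanSpace ℂ (Fin n)) M]


/-- `l` is a (nonempty) maximal component of the core of `Ω`: a maximal element of the family
`L`. -/
def IsMaximalComponent (n : ℕ) {M : Type*} [TopologicalSpace M]
    [ChartedSpace (EuclideanSpace ℂ (Fin n)) M] (Ω l : Set M) : Prop :=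
  l.Nonempty ∧ InL n Ω l ∧ ∀ m : Set M, InL n Ω m → l ⊆ m → m = l

theorem lev_eq {Ω l : Set M} (hl : IsMaximalComponent n Ω l) {z : M} (hz : z ∈ l) :
    lev n Ω z = l := by
  obtain ⟨-, h1, h2⟩ := hl
  have h3 : l ⊆ lev n Ω z := fun w hw => ⟨h1.1 hw, fun φ hφ => h1.2 φ hφ w hw z hz⟩
  refine h2 _ ⟨fun w hw => hw.1, fun φ hφ p hp q hq => ?_⟩ h3
  rw [hp.2 φ hφ, hq.2 φ hφ]

theorem cont_of_chart {e : OpenPartialHomeomorph M (EuclideanSpace ℂ (Fin n))} {p : M} (hp : p ∈ e.source) {φ : M → ℝ}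
    (h : ContinuousAt (fun x => φ (e.symm x)) (e p)) : ContinuousAt φ p := by
  have h1 : φ =ᶠ[𝓝 p] fun q => (fun x => φ (e.symm x)) (e q) := by
    filter_upwards [e.open_source.mem_nhds hp] with q hq
    rw [e.left_inv hq]
  exact (h.comp (e.continuousAt hp)).congr h1.symm

theorem MemF.cont {Ω : Set M} (hΩ : IsOpen Ω) {φ : M → ℝ} (h : MemF (n := n) Ω φ) {p : M}
    (hp : p ∈ Ω) : ContinuousAt φ p := by
  have hs := mem_chart_source (EuclideanSpace ℂ (Fin n)) p
  apply cont_of_chart hs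
  exact (h.cda hΩ (chart_mem_atlas (EuclideanSpace ℂ (Fin n)) p) ⟨(chartAt (EuclideanSpace ℂ (Fin n)) p).map_source hs, by
    rw [mem_preimage, (chartAt (EuclideanSpace ℂ (Fin n)) p).left_inv hs]; exact hp⟩).continuousAt

theorem dsq_pos {x₀ x : (EuclideanSpace ℂ (Fin n))} (h : x ≠ x₀) : 0 < dsq x₀ x := by
  refine lt_of_le_of_ne (dsq_nonneg x₀ x) fun h0 => h ?_
  unfold dsq at h0
  have h1 := (Finset.sum_eq_zero_iff_of_nonneg (fun k _ => by positivity)).1 h0.symm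
  ext k
  have h2 := h1 k (Finset.mem_univ k)
  have h3 : ((x k).re - (x₀ k).re) ^ 2 = 0 := by
    nlinarith [sq_nonneg ((x k).re - (x₀ k).re), sq_nonneg ((x k).im - (x₀ k).im)]
  have h4 : ((x k).im - (x₀ k).im) ^ 2 = 0 := by
    nlinarith [sq_nonneg ((x k).re - (x₀ k).re), sq_nonneg ((x k).im - (x₀ k).im)]
  apply Complex.ext
  · exact sub_eq_zero.1 (pow_eq_zero_iff two_ne_zero |>.1 h3)
  · exact sub_eq_zero.1 (pow_eq_zero_iff two_ne_zero |>.1 h4)

variable [IsManifold 𝓘(ℂ, EuclideanSpace ℂ (Fin n)) ω M]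

/-- the core is closed in `Ω` -/
theorem core_closed {Ω : Set M} (hΩ : IsOpen Ω) {p : M} (hp : p ∈ Ω) (hpc : p ∉ core n Ω) :
    ∀ᶠ q in 𝓝 p, q ∉ core n Ω := by
  have h1 : ∃ χ : M → ℝ, MemF (n := n) Ω χ ∧ StrictAt (n := n) χ p := by
    by_contra hcon
    push Not at hcon
    exact hpc ⟨hp, hcon⟩
  obtain ⟨χ, hχ, hst⟩ := h1
  set e := chartAt (EuclideanSpace ℂ (Fin n)) p with he
  have hea : e ∈ atlas (EuclideanSpace ℂ (Fin n)) M := chart_mem_atlas (EuclideanSpace ℂ (Fin n)) p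
  have hs : p ∈ e.source := mem_chart_source (EuclideanSpace ℂ (Fin n)) p
  have hx : e p ∈ e.target ∩ e.symm ⁻¹' Ω := ⟨e.map_source hs, by
    rw [mem_preimage, e.left_inv hs]; exact hp⟩
  obtain ⟨c, hc, s, hs0, hsV, hlow⟩ := strict_nbhd (open_dom hΩ)
    ((hχ.smooth e hea).of_le (by exact ENat.LEInfty.out)) hx (hst e hea hs)
  have h2 : ∀ᶠ q in 𝓝 p, q ∈ e.source ∧ e q ∈ ball (e p) s := by
    have h3 : ∀ᶠ q in 𝓝 p, q ∈ e.source := e.open_source.mem_nhds hs
    exact h3.and ((e.continuousAt hs).eventually (ball_mem_nhds _ hs0))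
  filter_upwards [h2] with q hq hqc
  refine hqc.2 χ hχ fun e' he' hq' v hv => ?_
  have hxq : e' q ∈ e'.target := e'.map_source hq'
  have hsq : e'.symm (e' q) = q := e'.left_inv hq'
  have hsrc : e'.symm (e' q) ∈ e.source := by rw [hsq]; exact hq.1
  have hcd : ContDiffAt ℝ 2 (fun y => χ (e.symm y)) (e (e'.symm (e' q))) := by
    apply hχ.cda2 hΩ hea
    rw [hsq]
    exact hsV hq.2
  rw [levi_chart he' hea hxq hsrc hcd v]
  have h3 := hlow (e (e'.symm (e' q))) (by rw [hsq]; exact hq.2)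
    (fderiv ℂ (fun y => e (e'.symm y)) (e' q) v)
  refine lt_of_lt_of_le ?_ h3
  have h4 := norm_pos_iff.2 (trans_inj he' hea hxq hsrc hv)
  positivity

theorem comp_closed {Ω l : Set M} (hΩ : IsOpen Ω) (hl : IsMaximalComponent n Ω l) {p : M}
    (hp : p ∈ Ω) (hpl : p ∉ l) : ∀ᶠ q in 𝓝 p, q ∉ l := by
  obtain ⟨z, hz⟩ := hl.1
  by_cases hpc : p ∈ core n Ω
  · have h1 : ∃ φ : M → ℝ, MemF (n := n) Ω φ ∧ φ p ≠ φ z := by
      by_contra hcon
      push Not at hcon
      exact hpl (by rw [← lev_eq hl hz]; exact ⟨hpc, hcon⟩)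
    obtain ⟨φ, hφ, hne⟩ := h1
    filter_upwards [(hφ.cont hΩ hp).eventually_ne hne] with q hq hql
    exact hq (hl.2.1.2 φ hφ q hql z hz)
  · filter_upwards [core_closed hΩ hp hpc] with q hq hql
    exact hq (hl.2.1.1 hql)

variable [T2Space M]

/-- the local maximum property -/
theorem comp_max {Ω l : Set M} (hΩ : IsOpen Ω) (hl : IsMaximalComponent n Ω l)
    {e : OpenPartialHomeomorph M (EuclideanSpace ℂ (Fin n))} (he : e ∈ atlas (EuclideanSpace ℂ (Fin n)) M) {V W : Set (EuclideanSpace ℂ (Fin n))} (hV : IsOpen V)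
    (hVe : V ⊆ e.target ∩ e.symm ⁻¹' Ω) (hW : IsOpen W) (hK : IsCompact (closure W))
    (hKV : closure W ⊆ V) {g : (EuclideanSpace ℂ (Fin n)) → ℝ} (hg : ContDiffOn ℝ ∞ g V)
    (hgp : ∀ x ∈ V, ∀ v, 0 ≤ levi g x v) {z : M} (hz : z ∈ l) (hze : z ∈ e.source)
    (hzW : e z ∈ W) :
    ∃ w ∈ l, w ∈ e.source ∧ e w ∈ frontier W ∧ g (e z) ≤ g (e w) := by
  obtain ⟨x, hx, h1, h2⟩ := local_max hΩ he (hl.2.1.1 hz) hze hV hVe hW hK hKV hzW hg hgp
  have hxt : x ∈ e.target := (hVe (hKV (frontier_subset_closure hx))).1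
  refine ⟨e.symm x, by rwa [lev_eq hl hz] at h1, e.map_target hxt, ?_, ?_⟩
  · rwa [e.right_inv hxt]
  · rwa [e.right_inv hxt]

omit [IsManifold 𝓘(ℂ, EuclideanSpace ℂ (Fin n)) ω M] [T2Space M] in
/-- small balls -/
theorem small_ball {Ω : Set M} (hΩ : IsOpen Ω) {z : M} (hz : z ∈ Ω) {U : Set M} (hU : U ∈ 𝓝 z) :
    ∃ r : ℝ, 0 < r ∧ ball ((chartAt (EuclideanSpace ℂ (Fin n)) z) z) r ⊆
      (chartAt (EuclideanSpace ℂ (Fin n)) z).target ∩ (chartAt (EuclideanSpace ℂ (Fin n)) z).symm ⁻¹' (Ω ∩ U) := by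
  set e := chartAt (EuclideanSpace ℂ (Fin n)) z with he
  have hs : z ∈ e.source := mem_chart_source (EuclideanSpace ℂ (Fin n)) z
  have h1 : e.target ∩ e.symm ⁻¹' (Ω ∩ U) ∈ 𝓝 (e z) := by
    apply inter_mem (e.open_target.mem_nhds (e.map_source hs))
    apply (e.continuousAt_symm (e.map_source hs)).preimage_mem_nhds
    rw [e.left_inv hs]
    exact inter_mem (hΩ.mem_nhds hz) hU
  obtain ⟨r, hr, h2⟩ := Metric.mem_nhds_iff.1 h1
  exact ⟨r, hr, h2⟩

theorem comp_acc {Ω l : Set M} (hΩ : IsOpen Ω) (hl : IsMaximalComponent n Ω l) {z : M}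
    (hz : z ∈ l) : AccPt z (𝓟 l) := by
  rw [accPt_iff_nhds]
  intro U hU
  have hzΩ : z ∈ Ω := (hl.2.1.1 hz).1
  obtain ⟨r, hr, hrs⟩ := small_ball (n := n) hΩ hzΩ hU
  set e := chartAt (EuclideanSpace ℂ (Fin n)) z with he
  have hs : z ∈ e.source := mem_chart_source (EuclideanSpace ℂ (Fin n)) z
  have hcl : closure (ball (e z) (r / 2)) ⊆ ball (e z) r := by
    intro x hx
    have := closure_ball_subset_closedBall hx
    rw [mem_closedBall] at this
    rw [mem_ball]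
    linarith
  have hcK : IsCompact (closure (ball (e z) (r / 2))) := by
    have : ProperSpace (EuclideanSpace ℂ (Fin n)) := inferInstance
    exact Metric.isBounded_ball.isCompact_closure
  obtain ⟨w, hw, hws, hwF, -⟩ := comp_max hΩ hl (chart_mem_atlas (EuclideanSpace ℂ (Fin n)) z) isOpen_ball
    (hrs.trans fun x hx => ⟨hx.1, hx.2.1⟩) isOpen_ball hcK hcl (g := fun _ => 0)
    contDiffOn_const (fun x _ v => by rw [levi_const]) hz hs (mem_ball_self (half_pos hr))
  have h1 : e w ∈ sphere (e z) (r / 2) := frontier_ball_subset_sphere hwF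
  refine ⟨w, ⟨?_, hw⟩, ?_⟩
  · have h2 := (hrs (hcl (frontier_subset_closure hwF))).2.2
    rwa [e.left_inv hws] at h2
  · rintro rfl
    rw [mem_sphere, dist_self] at h1
    linarith

theorem comp_not_compact {Ω l : Set M} (hΩ : IsOpen Ω) (hl : IsMaximalComponent n Ω l)
    {s : M → ℝ} (hs : ∀ e ∈ atlas (EuclideanSpace ℂ (Fin n)) M, ContDiffOn ℝ ∞ (fun x => s (e.symm x)) e.target)
    (hst : ∀ z, StrictAt (n := n) s z) : ¬ IsCompact l := by
  intro hc
  have hcont : ContinuousOn s l := by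
    intro p hp
    apply ContinuousAt.continuousWithinAt
    have h1 := mem_chart_source (EuclideanSpace ℂ (Fin n)) p
    apply cont_of_chart h1
    exact ((hs _ (chart_mem_atlas (EuclideanSpace ℂ (Fin n)) p)).continuousOn.continuousAt
      ((chartAt (EuclideanSpace ℂ (Fin n)) p).open_target.mem_nhds ((chartAt (EuclideanSpace ℂ (Fin n)) p).map_source h1)))
  obtain ⟨z, hz, hmax⟩ := hc.exists_isMaxOn hl.1 hcont
  have hzΩ : z ∈ Ω := (hl.2.1.1 hz).1
  set e := chartAt (EuclideanSpace ℂ (Fin n)) z with he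
  have hea : e ∈ atlas (EuclideanSpace ℂ (Fin n)) M := chart_mem_atlas (EuclideanSpace ℂ (Fin n)) z
  have hsz : z ∈ e.source := mem_chart_source (EuclideanSpace ℂ (Fin n)) z
  have hx : e z ∈ e.target ∩ e.symm ⁻¹' Ω := ⟨e.map_source hsz, by
    rw [mem_preimage, e.left_inv hsz]; exact hzΩ⟩
  have hsm : ContDiffOn ℝ ∞ (fun x => s (e.symm x)) (e.target ∩ e.symm ⁻¹' Ω) :=
    (hs e hea).mono inter_subset_left
  obtain ⟨c, hc0, r, hr, hrV, hlow⟩ := strict_nbhd (open_dom hΩ)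
    (hsm.of_le (by exact ENat.LEInfty.out)) hx (hst z e hea hsz)
  have hcl : closure (ball (e z) (r / 2)) ⊆ ball (e z) r := by
    intro x hx
    have := closure_ball_subset_closedBall hx
    rw [mem_closedBall] at this
    rw [mem_ball]
    linarith
  have hcK : IsCompact (closure (ball (e z) (r / 2))) := by
    have : ProperSpace (EuclideanSpace ℂ (Fin n)) := inferInstance
    exact Metric.isBounded_ball.isCompact_closure
  obtain ⟨w, hw, hws, hwF, hle⟩ := comp_max hΩ hl hea isOpen_ball hrV isOpen_ball hcK hcl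
    (g := fun x => s (e.symm x) + (-c) * dsq (e z) x)
    ((hsm.mono hrV).add (contDiffOn_const.mul (dsq_contDiff _).contDiffOn)) (fun x hx v => by
      have c1 : ContDiffAt ℝ 2 (fun x => s (e.symm x)) x :=
        ((hsm.mono hrV).contDiffAt (isOpen_ball.mem_nhds hx)).of_le (by exact ENat.LEInfty.out)
      have c2 : ContDiffAt ℝ 2 (dsq (e z)) x :=
        (dsq_contDiff (e z)).contDiffAt.of_le (by exact ENat.LEInfty.out)
      rw [levi_add c1 (contDiffAt_const.mul c2), levi_mul c2, dsq_levi]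
      linarith [hlow x hx v]) hz hsz (mem_ball_self (half_pos hr))
  have h1 : e w ∈ sphere (e z) (r / 2) := frontier_ball_subset_sphere hwF
  have h2 : e w ≠ e z := by
    intro h
    rw [h, mem_sphere, dist_self] at h1
    linarith
  have h3 := dsq_pos h2
  simp only [e.left_inv hws, e.left_inv hsz, dsq_self] at hle
  have h4 : s w ≤ s z := hmax hw
  nlinarith

end Pool.Agent.H2.Core
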