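import Pool.Agent.H2.Core.Pair

/-!
# Gluing: the core has the local maximum property
-/

set_option autoImplicit false

open Filter Topology Set Metric
open scoped ContDiff Manifold

namespace Pool.Agent.H2.Core

variable {n : ℕ} {M : Type*} [TopologicalSpace M] [ChartedSpace (EuclideanSpace ℂ (Fin n)) M]


/-- the Levi form of the square of a real linear function -/
theorem levi_lin_sq (L : (EuclideanSpace ℂ (Fin n)) →L[ℝ] ℝ) (a : ℝ) (x v : (EuclideanSpace ℂ (Fin n))) :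
    levi (fun y => (L y - a) ^ 2) x v = (1 / 2) * (L v ^ 2 + L (Complex.I • v) ^ 2) := by
  have h1 : ContDiffAt ℝ 2 (fun y => L y) x := L.contDiff.contDiffAt
  have h2 : fderiv ℝ (fun y => L y) = fun _ => L := by
    funext y
    exact L.hasFDerivAt.fderiv
  have h3 : levi (fun y => L y) x v = 0 := by
    unfold levi hess
    rw [h2]
    simp
  rw [levi_sq_sub h1 a v, h3]
  unfold dg
  rw [h2]
  ring

/-- the square of the distance from `x₀` -/
noncomputable def dsq (x₀ : (EuclideanSpace ℂ (Fin n))) (x : (EuclideanSpace ℂ (Fin n))) : ℝ :=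
  ∑ k : Fin n, (((x k).re - (x₀ k).re) ^ 2 + ((x k).im - (x₀ k).im) ^ 2)

noncomputable def reL (k : Fin n) : (EuclideanSpace ℂ (Fin n)) →L[ℝ] ℝ :=
  Complex.reCLM.comp ((EuclideanSpace.proj (𝕜 := ℂ) k : (EuclideanSpace ℂ (Fin n)) →L[ℂ] ℂ).restrictScalars ℝ)

noncomputable def imL (k : Fin n) : (EuclideanSpace ℂ (Fin n)) →L[ℝ] ℝ :=
  Complex.imCLM.comp ((EuclideanSpace.proj (𝕜 := ℂ) k : (EuclideanSpace ℂ (Fin n)) →L[ℂ] ℂ).restrictScalars ℝ)

theorem reL_apply (k : Fin n) (x : (EuclideanSpace ℂ (Fin n))) : reL k x = (x k).re := rfl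
theorem imL_apply (k : Fin n) (x : (EuclideanSpace ℂ (Fin n))) : imL k x = (x k).im := rfl

theorem dsq_contDiff (x₀ : (EuclideanSpace ℂ (Fin n))) : ContDiff ℝ ∞ (dsq x₀) := by
  unfold dsq
  apply ContDiff.sum
  intro k _
  exact (((reL k).contDiff.sub contDiff_const).pow 2).add
    (((imL k).contDiff.sub contDiff_const).pow 2)

theorem dsq_self (x₀ : (EuclideanSpace ℂ (Fin n))) : dsq x₀ x₀ = 0 := by simp [dsq]

theorem dsq_nonneg (x₀ x : (EuclideanSpace ℂ (Fin n))) : 0 ≤ dsq x₀ x := by unfold dsq; positivity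

theorem dsq_levi (x₀ x v : (EuclideanSpace ℂ (Fin n))) : levi (dsq x₀) x v = ‖v‖ ^ 2 := by
  have h0 : dsq x₀ = fun y => ∑ k : Fin n, ((reL k y - (x₀ k).re) ^ 2 + (imL k y - (x₀ k).im) ^ 2) :=
    rfl
  have hr : ∀ k : Fin n, ContDiffAt ℝ 2 (fun y => (reL k y - (x₀ k).re) ^ 2) x := fun k =>
    (((reL k).contDiff.sub contDiff_const).pow 2).contDiffAt
  have hi : ∀ k : Fin n, ContDiffAt ℝ 2 (fun y => (imL k y - (x₀ k).im) ^ 2) x := fun k =>
    (((imL k).contDiff.sub contDiff_const).pow 2).contDiffAt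
  rw [h0, levi_sum _ (fun k _ => (hr k).add (hi k)), EuclideanSpace.norm_sq_eq]
  refine Finset.sum_congr rfl fun k _ => ?_
  rw [levi_add (hr k) (hi k), levi_lin_sq, levi_lin_sq, Complex.sq_norm, Complex.normSq_apply]
  simp only [reL_apply, imL_apply, PiLp.smul_apply, smul_eq_mul, Complex.mul_re, Complex.mul_im,
    Complex.I_re, Complex.I_im]
  ring

end Pool.Agent.H2.Core
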