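import Mathlib

/-!
# The Levi form of a function of class `C²`
-/

set_option autoImplicit false

open Filter Topology Set Metric
open scoped ContDiff

namespace Pool.Agent.H2.Core

variable {E : Type*} [NormedAddCommGroup E] [NormedSpace ℂ E]

/-- The real Hessian of `g` at `x`. -/
noncomputable def hess (g : E → ℝ) (x v w : E) : ℝ := fderiv ℝ (fderiv ℝ g) x v w

/-- The Levi form of `g` at `x` in the direction `v`, that is
`∑ ∂²g/∂z_j∂z̄_k (x) v_j v̄_k`, which is `1 / 4` of the Laplacian of `ζ ↦ g (x + ζ v)` at `0`. -/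
noncomputable def levi (g : E → ℝ) (x v : E) : ℝ :=
  (1 / 4) * (hess g x v v + hess g x (Complex.I • v) (Complex.I • v))

theorem hess_congr {g h : E → ℝ} {x : E} (H : g =ᶠ[𝓝 x] h) (v w : E) :
    hess g x v w = hess h x v w := by
  unfold hess
  rw [(H.fderiv (𝕜 := ℝ)).fderiv_eq]

theorem levi_congr {g h : E → ℝ} {x : E} (H : g =ᶠ[𝓝 x] h) (v : E) : levi g x v = levi h x v := by
  unfold levi
  rw [hess_congr H, hess_congr H]

theorem diff_fderiv {g : E → ℝ} {x : E} (hg : ContDiffAt ℝ 2 g x) :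
    DifferentiableAt ℝ (fderiv ℝ g) x := by
  have h1 : ContDiffAt ℝ 1 (fderiv ℝ g) x := hg.fderiv_right (by norm_num)
  exact h1.differentiableAt (by norm_num)

theorem ev_diff {F : Type*} [NormedAddCommGroup F] [NormedSpace ℝ F] {G : E → F} {x : E}
    (hg : ContDiffAt ℝ 2 G x) : ∀ᶠ y in 𝓝 x, DifferentiableAt ℝ G y := by
  have h1 := hg.eventually (by norm_num)
  filter_upwards [h1] with y hy
  exact hy.differentiableAt (by norm_num)

theorem hess_add {g h : E → ℝ} {x : E} (hg : ContDiffAt ℝ 2 g x) (hh : ContDiffAt ℝ 2 h x)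
    (v w : E) : hess (fun y => g y + h y) x v w = hess g x v w + hess h x v w := by
  unfold hess
  have h1 : fderiv ℝ (fun y => g y + h y) =ᶠ[𝓝 x] fun y => fderiv ℝ g y + fderiv ℝ h y := by
    filter_upwards [ev_diff hg, ev_diff hh] with y h1 h2
    exact fderiv_fun_add h1 h2
  rw [h1.fderiv_eq, fderiv_fun_add (diff_fderiv hg) (diff_fderiv hh)]
  rfl

theorem levi_add {g h : E → ℝ} {x : E} (hg : ContDiffAt ℝ 2 g x) (hh : ContDiffAt ℝ 2 h x)
    (v : E) : levi (fun y => g y + h y) x v = levi g x v + levi h x v := by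
  unfold levi
  rw [hess_add hg hh, hess_add hg hh]
  ring

theorem hess_mul {g : E → ℝ} {x : E} (hg : ContDiffAt ℝ 2 g x) (c : ℝ) (v w : E) :
    hess (fun y => c * g y) x v w = c * hess g x v w := by
  unfold hess
  have h1 : fderiv ℝ (fun y => c * g y) =ᶠ[𝓝 x] fun y => c • fderiv ℝ g y := by
    filter_upwards [ev_diff hg] with y h1
    exact fderiv_const_mul h1 c
  rw [h1.fderiv_eq, fderiv_fun_const_smul (diff_fderiv hg)]
  rfl

theorem levi_mul {g : E → ℝ} {x : E} (hg : ContDiffAt ℝ 2 g x) (c : ℝ) (v : E) :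
    levi (fun y => c * g y) x v = c * levi g x v := by
  unfold levi
  rw [hess_mul hg, hess_mul hg]
  ring

theorem hess_const (c : ℝ) (x v w : E) : hess (fun _ : E => c) x v w = 0 := by
  unfold hess
  have h1 : fderiv ℝ (fun _ : E => c) = fun _ => 0 := by
    funext y
    simp
  rw [h1]
  simp

theorem levi_const (c : ℝ) (x v : E) : levi (fun _ : E => c) x v = 0 := by
  unfold levi
  rw [hess_const, hess_const]
  ring

theorem levi_sum {ι : Type*} (s : Finset ι) {g : ι → E → ℝ} {x : E}
    (hg : ∀ i ∈ s, ContDiffAt ℝ 2 (g i) x) (v : E) :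
    levi (fun y => ∑ i ∈ s, g i y) x v = ∑ i ∈ s, levi (g i) x v := by
  classical
  induction s using Finset.induction_on with
  | empty => simpa using levi_const (0 : ℝ) x v
  | insert a s ha ih =>
    have h1 : ∀ i ∈ s, ContDiffAt ℝ 2 (g i) x := fun i hi => hg i (Finset.mem_insert_of_mem hi)
    have h2 : ContDiffAt ℝ 2 (fun y => ∑ i ∈ s, g i y) x := ContDiffAt.sum h1
    have h3 : (fun y => ∑ i ∈ insert a s, g i y) = fun y => g a y + ∑ i ∈ s, g i y := by
      funext y
      rw [Finset.sum_insert ha]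
    rw [h3, levi_add (hg a (Finset.mem_insert_self a s)) h2, ih h1, Finset.sum_insert ha]

/-- the square of the length of `∂g` in the direction `v` -/
noncomputable def dg (g : E → ℝ) (x v : E) : ℝ :=
  (1 / 4) * (fderiv ℝ g x v ^ 2 + fderiv ℝ g x (Complex.I • v) ^ 2)

theorem dg_nonneg (g : E → ℝ) (x v : E) : 0 ≤ dg g x v := by
  unfold dg
  positivity

/-- composition with a function of one real variable -/
theorem hess_comp {g : E → ℝ} {x : E} (hg : ContDiffAt ℝ 2 g x) {m : ℝ → ℝ}
    (hm : ContDiffAt ℝ 2 m (g x)) (v : E) :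
    hess (fun y => m (g y)) x v v =
      deriv (deriv m) (g x) * fderiv ℝ g x v ^ 2 + deriv m (g x) * hess g x v v := by
  unfold hess
  have h1 : fderiv ℝ (fun y => m (g y)) =ᶠ[𝓝 x] fun y => deriv m (g y) • fderiv ℝ g y := by
    have hm1 : ∀ᶠ t in 𝓝 (g x), DifferentiableAt ℝ m t := by
      have h1 := hm.eventually (by norm_num)
      filter_upwards [h1] with y hy
      exact hy.differentiableAt (by norm_num)
    filter_upwards [ev_diff hg, hg.continuousAt.eventually hm1] with y h1 h2
    have h3 : HasFDerivAt (fun y => m (g y)) (deriv m (g y) • fderiv ℝ g y) y :=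
      h2.hasDerivAt.comp_hasFDerivAt y h1.hasFDerivAt
    exact h3.fderiv
  have h2 : DifferentiableAt ℝ (deriv m) (g x) := by
    have h3 : ContDiffAt ℝ 1 (fderiv ℝ m) (g x) := hm.fderiv_right (by norm_num)
    have h4 : DifferentiableAt ℝ (fun t => fderiv ℝ m t 1) (g x) :=
      (h3.differentiableAt (by norm_num)).clm_apply (differentiableAt_const _)
    exact h4
  have hg1 : DifferentiableAt ℝ g x := hg.differentiableAt (by norm_num)
  have h3 : HasFDerivAt (fun y => deriv m (g y)) (deriv (deriv m) (g x) • fderiv ℝ g x) x :=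
    h2.hasDerivAt.comp_hasFDerivAt x hg1.hasFDerivAt
  have h4 := h3.smul (diff_fderiv hg).hasFDerivAt
  have h5 : (fun y => deriv m (g y) • fderiv ℝ g y) = (fun y => deriv m (g y)) • fderiv ℝ g := rfl
  rw [h1.fderiv_eq, h5, h4.fderiv]
  simp
  ring

theorem levi_comp {g : E → ℝ} {x : E} (hg : ContDiffAt ℝ 2 g x) {m : ℝ → ℝ}
    (hm : ContDiffAt ℝ 2 m (g x)) (v : E) :
    levi (fun y => m (g y)) x v =
      deriv (deriv m) (g x) * dg g x v + deriv m (g x) * levi g x v := by
  unfold levi dg
  rw [hess_comp hg hm, hess_comp hg hm]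
  ring

/-- composition with a holomorphic map -/
theorem levi_holo {F : Type*} [NormedAddCommGroup F] [NormedSpace ℂ F] {g : F → ℝ} {H : E → F}
    {x : E} (hg : ContDiffAt ℝ 2 g (H x)) (hH : ContDiffAt ℂ 2 H x) (v : E) :
    levi (fun y => g (H y)) x v = levi g (H x) (fderiv ℂ H x v) := by
  have hHr : ContDiffAt ℝ 2 H x := hH.restrict_scalars ℝ
  have hd : ∀ᶠ y in 𝓝 x, DifferentiableAt ℂ H y := by
    filter_upwards [hH.eventually (by norm_num)] with y hy
    exact hy.differentiableAt (by norm_num)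
  -- the second derivative of `H`
  have hD : DifferentiableAt ℂ (fderiv ℂ H) x := by
    have h1 : ContDiffAt ℂ 1 (fderiv ℂ H) x := hH.fderiv_right (by norm_num)
    exact h1.differentiableAt (by norm_num)
  have hr : fderiv ℝ H =ᶠ[𝓝 x] fun y => (fderiv ℂ H y).restrictScalars ℝ := by
    filter_upwards [hd] with y hy
    exact (hy.hasFDerivAt.restrictScalars ℝ).fderiv
  have hD2 : HasFDerivAt (fderiv ℝ H)
      ((ContinuousLinearMap.restrictScalarsL ℂ E F ℝ ℝ).comp
        ((fderiv ℂ (fderiv ℂ H) x).restrictScalars ℝ)) x := by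
    have h1 : HasFDerivAt (fun y => (fderiv ℂ H y).restrictScalars ℝ)
        ((ContinuousLinearMap.restrictScalarsL ℂ E F ℝ ℝ).comp
        ((fderiv ℂ (fderiv ℂ H) x).restrictScalars ℝ)) x :=
      ((ContinuousLinearMap.restrictScalarsL ℂ E F ℝ ℝ).hasFDerivAt).comp x
        (hD.hasFDerivAt.restrictScalars ℝ)
    exact h1.congr_of_eventuallyEq hr
  have key : ∀ w : E, hess (fun y => g (H y)) x w w =
      hess g (H x) (fderiv ℂ H x w) (fderiv ℂ H x w) +
        fderiv ℝ g (H x) (fderiv ℂ (fderiv ℂ H) x w w) := by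
    intro w
    unfold hess
    have h1 : fderiv ℝ (fun y => g (H y)) =ᶠ[𝓝 x]
        fun y => (fderiv ℝ g (H y)).comp (fderiv ℝ H y) := by
      filter_upwards [ev_diff hHr, hHr.continuousAt.eventually
        (by
          have h1 := hg.eventually (by norm_num)
          filter_upwards [h1] with y hy
          exact hy.differentiableAt (by norm_num) :
          ∀ᶠ t in 𝓝 (H x), DifferentiableAt ℝ g t)] with y h1 h2
      exact fderiv_comp y h2 h1
    have h2 : HasFDerivAt (fun y => fderiv ℝ g (H y))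
        ((fderiv ℝ (fderiv ℝ g) (H x)).comp (fderiv ℝ H x)) x := by
      have h3 : DifferentiableAt ℝ (fderiv ℝ g) (H x) := by
        have h1 : ContDiffAt ℝ 1 (fderiv ℝ g) (H x) := hg.fderiv_right (by norm_num)
        exact h1.differentiableAt (by norm_num)
      exact h3.hasFDerivAt.comp x (hHr.differentiableAt (by norm_num)).hasFDerivAt
    have h4 := h2.clm_comp hD2
    rw [h1.fderiv_eq, h4.fderiv]
    have h5 : fderiv ℝ H x = (fderiv ℂ H x).restrictScalars ℝ := hr.eq_of_nhds
    simp [h5]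
    ring
  unfold levi
  rw [key, key]
  have e1 : fderiv ℂ H x (Complex.I • v) = Complex.I • fderiv ℂ H x v := by simp
  have e2 : fderiv ℂ (fderiv ℂ H) x (Complex.I • v) (Complex.I • v) =
      - fderiv ℂ (fderiv ℂ H) x v v := by
    simp [smul_smul]
  rw [e1, e2, map_neg]
  ring

end Pool.Agent.H2.Core
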