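import Pool.Agent.H2.Core.Glue

/-!
# The local maximum property of the maximal components
-/

set_option autoImplicit false

open Filter Topology Set Metric
open scoped ContDiff Manifold

namespace Pool.Agent.H2.Core

variable {n : ℕ} {M : Type*} [TopologicalSpace M] [ChartedSpace (EuclideanSpace ℂ (Fin n)) M]


/-- the glued function in the chart -/
theorem levi_glue {V : Set (EuclideanSpace ℂ (Fin n))} (hV : IsOpen V) {Φ d : (EuclideanSpace ℂ (Fin n)) → ℝ} (hΦ : ContDiffOn ℝ ∞ Φ V)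
    (hd : ContDiffOn ℝ ∞ d V) {x v : (EuclideanSpace ℂ (Fin n))} (hx : x ∈ V) (h0 : 0 ≤ levi Φ x v)
    (h1 : 0 ≤ levi Φ x v + levi d x v) :
    expNegInvGlue (d x) * (levi Φ x v + levi d x v) ≤ levi (fun y => Φ y + glue (d y)) x v := by
  have e1 : ContDiffAt ℝ 2 Φ x := (hΦ.contDiffAt (hV.mem_nhds hx)).of_le (by exact ENat.LEInfty.out)
  have e2 : ContDiffAt ℝ 2 d x := (hd.contDiffAt (hV.mem_nhds hx)).of_le (by exact ENat.LEInfty.out)
  have e3 : ContDiffAt ℝ 2 glue (d x) := glue_contDiff.contDiffAt.of_le (by exact ENat.LEInfty.out)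
  have e4 : ContDiffAt ℝ 2 (fun y => glue (d y)) x := e3.comp x e2
  rw [levi_add e1 e4, levi_comp e2 e3]
  have h2 : 0 ≤ deriv (deriv glue) (d x) * dg d x v :=
    mul_nonneg (deriv_glue_nonneg _) (dg_nonneg _ _ _)
  rw [deriv_glue] at h2 ⊢
  have h3 := expNeg_le_one (d x)
  have h4 := expNegInvGlue.nonneg (d x)
  nlinarith

/-- **Gluing.** Let `W` be relatively compact in the chart `e`, and let `Φ ∈ 𝓕(Ω)` and the local
function `d` be such that `Φ + d` is plurisubharmonic on `W`, strictly at `z`, and that `d < 0` on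
the boundary of `W` and `d (z) > 0`. Then `z` is not in the core. -/
theorem not_core [T2Space M] [IsManifold 𝓘(ℂ, EuclideanSpace ℂ (Fin n)) ω M]
    {Ω : Set M} (hΩ : IsOpen Ω) {e : OpenPartialHomeomorph M (EuclideanSpace ℂ (Fin n))} (he : e ∈ atlas (EuclideanSpace ℂ (Fin n)) M)
    {z : M} (hz : z ∈ e.source) {V W : Set (EuclideanSpace ℂ (Fin n))} (hV : IsOpen V) (hVe : V ⊆ e.target ∩ e.symm ⁻¹' Ω)
    (hW : IsOpen W) (hK : IsCompact (closure W)) (hKV : closure W ⊆ V)
    (hzW : e z ∈ W) {Φ : M → ℝ} (hΦ : MemF (n := n) Ω Φ) {d : (EuclideanSpace ℂ (Fin n)) → ℝ}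
    (hd : ContDiffOn ℝ ∞ d V) (hneg : ∀ x ∈ frontier W, d x < 0) (hpos : 0 < d (e z))
    (hlevi : ∀ x ∈ closure W, ∀ v, 0 ≤ levi (fun y => Φ (e.symm y)) x v + levi d x v)
    (hstrict : ∀ v, v ≠ 0 → 0 < levi (fun y => Φ (e.symm y)) (e z) v + levi d (e z) v) :
    z ∉ core n Ω := by
  classical
  intro hcore
  set G : M → ℝ := fun p => if p ∈ e.source ∧ e p ∈ W then glue (d (e p)) else 0 with hG
  have hWV : W ⊆ V := subset_closure.trans hKV
  -- where `G` is zero
  have hzero : ∀ p : M, ¬ (p ∈ e.source ∧ e p ∈ W) → G =ᶠ[𝓝 p] fun _ => 0 := by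
    intro p hp
    by_cases hpC : p ∈ e.symm '' closure W
    · obtain ⟨x, hx, rfl⟩ := hpC
      have hxt : x ∈ e.target := (hVe (hKV hx)).1
      have hxs : e.symm x ∈ e.source := e.map_target hxt
      have hxW : x ∉ W := fun h => hp ⟨hxs, by rwa [e.right_inv hxt]⟩
      have hxF : x ∈ frontier W := by
        rw [hW.frontier_eq]
        exact ⟨hx, hxW⟩
      have h1 : ∀ᶠ y in 𝓝 x, d y < 0 :=
        (hd.continuousOn.continuousAt (hV.mem_nhds (hKV hx))).eventually_lt_const (hneg x hxF)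
      have h2 : ContinuousAt e (e.symm x) := e.continuousAt hxs
      have h3 : ∀ᶠ q in 𝓝 (e.symm x), d (e q) < 0 := by
        apply h2.eventually (p := fun y => d y < 0)
        rw [e.right_inv hxt]
        exact h1
      filter_upwards [h3] with q hq
      simp only [hG]
      split_ifs with h
      · exact glue_zero hq.le
      · rfl
    · have hcl : IsClosed (e.symm '' closure W) := by
        apply IsCompact.isClosed
        exact hK.image_of_continuousOn (e.continuousOn_symm.mono fun x hx => (hVe (hKV hx)).1)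
      filter_upwards [hcl.isOpen_compl.mem_nhds hpC] with q hq
      simp only [hG]
      rw [if_neg]
      rintro ⟨h1, h2⟩
      exact hq ⟨e q, subset_closure h2, e.left_inv h1⟩
  -- where `G` is the composition
  have hcomp : ∀ p : M, p ∈ e.source ∧ e p ∈ W → ∀ᶠ q in 𝓝 p, G q = glue (d (e q)) := by
    intro p hp
    have h1 : e.source ∩ e ⁻¹' W ∈ 𝓝 p := (e.isOpen_inter_preimage hW).mem_nhds hp
    filter_upwards [h1] with q hq
    exact if_pos (show q ∈ e.source ∧ e q ∈ W from hq)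
  -- the function in the chart `e`
  have hchart : ∀ x ∈ W, (fun y => Φ (e.symm y) + G (e.symm y)) =ᶠ[𝓝 x]
      fun y => Φ (e.symm y) + glue (d y) := by
    intro x hx
    filter_upwards [hW.mem_nhds hx] with y hy
    have hyt : y ∈ e.target := (hVe (hWV hy)).1
    simp only [hG]
    rw [if_pos ⟨e.map_target hyt, by rwa [e.right_inv hyt]⟩, e.right_inv hyt]
  have hΦV : ContDiffOn ℝ ∞ (fun y => Φ (e.symm y)) V := (hΦ.smooth e he).mono hVe
  have hsm2 : ContDiffOn ℝ ∞ (fun y => Φ (e.symm y) + glue (d y)) V :=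
    hΦV.add (glue_contDiff.comp_contDiffOn hd)
  have hcda : ∀ x ∈ W, ContDiffAt ℝ ∞ (fun y => Φ (e.symm y) + G (e.symm y)) x := by
    intro x hx
    exact (hsm2.contDiffAt (hV.mem_nhds (hWV hx))).congr_of_eventuallyEq (hchart x hx)
  have hlow : ∀ x ∈ W, ∀ v, expNegInvGlue (d x) *
      (levi (fun y => Φ (e.symm y)) x v + levi d x v) ≤
        levi (fun y => Φ (e.symm y) + G (e.symm y)) x v := by
    intro x hx v
    rw [levi_congr (hchart x hx)]
    exact levi_glue hV hΦV hd (hWV hx) (hΦ.psh e he x (hVe (hWV hx)) v)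
      (hlevi x (subset_closure hx) v)
  have hcda2 : ∀ x ∈ W, ContDiffAt ℝ 2 (fun y => Φ (e.symm y) + G (e.symm y)) x := fun x hx =>
    (hcda x hx).of_le (by exact ENat.LEInfty.out)
  -- the glued function belongs to `𝓕(Ω)`
  have hF : MemF (n := n) Ω (fun p => Φ p + G p) := by
    refine ⟨?_, ?_, ?_⟩
    · intro e' he' x hx
      apply ContDiffAt.contDiffWithinAt
      have hcs : ContinuousAt e'.symm x := e'.continuousAt_symm hx.1
      by_cases hp : e'.symm x ∈ e.source ∧ e (e'.symm x) ∈ W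
      · have h1 : (fun y => Φ (e'.symm y) + G (e'.symm y)) =ᶠ[𝓝 x]
            fun y => Φ (e'.symm y) + glue (d (e (e'.symm y))) := by
          filter_upwards [hcs.eventually (hcomp _ hp)] with y hy
          rw [hy]
        refine ContDiffAt.congr_of_eventuallyEq ?_ h1
        refine ((hΦ.smooth e' he').contDiffAt ((open_dom hΩ).mem_nhds hx)).add ?_
        have h2 : ContDiffAt ℝ ∞ (fun y => e (e'.symm y)) x :=
          ((trans_cda' he' he hx.1 hp.1).restrict_scalars ℝ).of_le (by exact le_top)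
        have h3 : ContDiffAt ℝ ∞ d (e (e'.symm x)) := hd.contDiffAt (hV.mem_nhds (hWV hp.2))
        exact glue_contDiff.contDiffAt.comp x (h3.comp x h2)
      · have h1 : (fun y => Φ (e'.symm y) + G (e'.symm y)) =ᶠ[𝓝 x] fun y => Φ (e'.symm y) := by
          filter_upwards [hcs.eventually (hzero _ hp)] with y hy
          rw [hy, add_zero]
        exact ((hΦ.smooth e' he').contDiffAt ((open_dom hΩ).mem_nhds hx)).congr_of_eventuallyEq h1
    · intro e' he' x hx v
      have hcs : ContinuousAt e'.symm x := e'.continuousAt_symm hx.1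
      by_cases hp : e'.symm x ∈ e.source ∧ e (e'.symm x) ∈ W
      · rw [levi_chart (φ := fun p => Φ p + G p) he' he hx.1 hp.1 (hcda2 _ hp.2) v]
        refine le_trans ?_ (hlow _ hp.2 _)
        exact mul_nonneg (expNegInvGlue.nonneg _) (hlevi _ (subset_closure hp.2) _)
      · have h1 : (fun y => Φ (e'.symm y) + G (e'.symm y)) =ᶠ[𝓝 x] fun y => Φ (e'.symm y) := by
          filter_upwards [hcs.eventually (hzero _ hp)] with y hy
          rw [hy, add_zero]
        rw [levi_congr h1]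
        exact hΦ.psh e' he' x hx v
    · obtain ⟨C, hC⟩ := hΦ.bdd
      obtain ⟨D, hD⟩ := hK.bddAbove_image (hd.continuousOn.mono hKV)
      refine ⟨C + glue (max D 0), fun p hp => add_le_add (hC p hp) ?_⟩
      simp only [hG]
      split_ifs with h
      · apply glue_mono
        exact (hD (mem_image_of_mem d (subset_closure h.2))).trans (le_max_left _ _)
      · have := glue_mono (le_max_right D 0)
        rwa [glue_zero le_rfl] at this
  refine hcore.2 _ hF ?_
  intro e' he' hz' v hv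
  have hx : e' z ∈ e'.target := e'.map_source hz'
  have hsz : e'.symm (e' z) = z := e'.left_inv hz'
  have hsrc : e'.symm (e' z) ∈ e.source := by rwa [hsz]
  have hWz : e (e'.symm (e' z)) ∈ W := by rwa [hsz]
  rw [levi_chart (φ := fun p => Φ p + G p) he' he hx hsrc (hcda2 _ hWz) v]
  refine lt_of_lt_of_le ?_ (hlow _ hWz _)
  rw [hsz]
  apply mul_pos (expNegInvGlue.pos_of_pos hpos)
  apply hstrict
  exact trans_inj he' he hx hsrc hv

/-- **The local maximum property of the sets `lev`.** -/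
theorem local_max [T2Space M] [IsManifold 𝓘(ℂ, EuclideanSpace ℂ (Fin n)) ω M]
    {Ω : Set M} (hΩ : IsOpen Ω) {e : OpenPartialHomeomorph M (EuclideanSpace ℂ (Fin n))} (he : e ∈ atlas (EuclideanSpace ℂ (Fin n)) M)
    {z : M} (hzc : z ∈ core n Ω) (hz : z ∈ e.source) {V W : Set (EuclideanSpace ℂ (Fin n))} (hV : IsOpen V)
    (hVe : V ⊆ e.target ∩ e.symm ⁻¹' Ω) (hW : IsOpen W) (hK : IsCompact (closure W))
    (hKV : closure W ⊆ V) (hzW : e z ∈ W) {g : (EuclideanSpace ℂ (Fin n)) → ℝ} (hg : ContDiffOn ℝ ∞ g V)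
    (hgp : ∀ x ∈ V, ∀ v, 0 ≤ levi g x v) :
    ∃ x ∈ frontier W, e.symm x ∈ lev n Ω z ∧ g (e z) ≤ g x := by
  classical
  by_contra hcon
  push Not at hcon
  have hFK : frontier W ⊆ closure W := frontier_subset_closure
  have hF : IsCompact (frontier W) := hK.of_isClosed_subset isClosed_frontier hFK
  -- the local choices
  have hloc : ∀ x ∈ frontier W, ∃ (η : ℝ) (Ψ : M → ℝ) (b : (EuclideanSpace ℂ (Fin n)) → ℝ), 0 < η ∧ MemF (n := n) Ω Ψ ∧
      ContDiffOn ℝ ∞ b V ∧ (∀ x, 0 ≤ b x) ∧ b (e z) = 0 ∧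
      (∀ x ∈ closure W, ∀ v, levi b x v ≤ levi (fun x => Ψ (e.symm x)) x v) ∧
      (∀ᶠ y in 𝓝 x, g y < g (e z) - η ∨ 0 < b y) := by
    intro x hx
    by_cases hxl : e.symm x ∈ lev n Ω z
    · have h1 := hcon x hx hxl
      refine ⟨(g (e z) - g x) / 2, fun _ => 0, fun _ => 0, by linarith, MemF.const Ω 0,
        contDiffOn_const, fun _ => le_rfl, rfl, fun x _ v => le_rfl, ?_⟩
      have h2 : ∀ᶠ y in 𝓝 x, g y < g (e z) - (g (e z) - g x) / 2 := by
        apply (hg.continuousOn.continuousAt (hV.mem_nhds (hKV (hFK hx)))).eventually_lt_const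
        linarith
      filter_upwards [h2] with y hy
      exact Or.inl hy
    · have hne : x ≠ e z := by
        rintro rfl
        rw [hW.frontier_eq] at hx
        exact hx.2 hzW
      obtain ⟨Ψ, b, h1, h2, h3, h4, h5, h6⟩ := pair hΩ he hz hK (hKV.trans hVe)
        (hVe (hKV (hFK hx))) hne hxl
      refine ⟨1, Ψ, b, one_pos, h1, h2.mono hVe, h3, h4, h6, ?_⟩
      have h7 : ∀ᶠ y in 𝓝 x, 0 < b y :=
        ((h2.mono hVe).continuousOn.continuousAt
          (hV.mem_nhds (hKV (hFK hx)))).eventually_const_lt h5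
      filter_upwards [h7] with y hy
      exact Or.inr hy
  choose! η Ψ b hη hΨ hb hb0 hbz hbl hev using hloc
  obtain ⟨t, htF, htc⟩ := hF.elim_nhds_subcover
    (fun x => {y | g y < g (e z) - η x ∨ 0 < b x y}) (fun x hx => hev x hx)
  -- a common `η`
  obtain ⟨η₀, hη₀, hη₀t⟩ : ∃ η₀ : ℝ, 0 < η₀ ∧ ∀ x ∈ t, η₀ ≤ η x := by
    rcases t.eq_empty_or_nonempty with h | h
    · exact ⟨1, one_pos, by simp [h]⟩
    · refine ⟨t.inf' h η, ?_, fun x hx => Finset.inf'_le _ hx⟩
      rw [Finset.lt_inf'_iff]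
      exact fun x hx => hη x (htF x hx)
  set B : (EuclideanSpace ℂ (Fin n)) → ℝ := fun y => ∑ x ∈ t, b x y with hB
  set Q : M → ℝ := fun p => ∑ x ∈ t, Ψ x p with hQ
  have hBV : ContDiffOn ℝ ∞ B V := ContDiffOn.sum fun x hx => hb x (htF x hx)
  have hB0 : ∀ y, 0 ≤ B y := fun y => Finset.sum_nonneg fun x hx => hb0 x (htF x hx) y
  have hBz : B (e z) = 0 := Finset.sum_eq_zero fun x hx => hbz x (htF x hx)
  have hQF : MemF (n := n) Ω Q := MemF.sum hΩ t fun x hx => hΨ x (htF x hx)
  have hKe : ∀ y ∈ closure W, y ∈ e.target ∩ e.symm ⁻¹' Ω := fun y hy => hVe (hKV hy)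
  have hBl : ∀ y ∈ closure W, ∀ v, levi B y v ≤ levi (fun x => Q (e.symm x)) y v := by
    intro y hy v
    have e1 : levi B y v = ∑ x ∈ t, levi (b x) y v := by
      apply levi_sum
      intro x hx
      exact ((hb x (htF x hx)).contDiffAt (hV.mem_nhds (hKV hy))).of_le
        (by exact ENat.LEInfty.out)
    have e2 : levi (fun x => Q (e.symm x)) y v = ∑ x ∈ t, levi (fun y => Ψ x (e.symm y)) y v := by
      apply levi_sum (g := fun x y => Ψ x (e.symm y))
      intro x hx
      exact (hΨ x (htF x hx)).cda2 hΩ he (hKe y hy)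
    rw [e1, e2]
    exact Finset.sum_le_sum fun x hx => hbl x (htF x hx) y hy v
  -- the set where `g` is large
  have hgc : ContinuousOn g (frontier W) := hg.continuousOn.mono (hFK.trans hKV)
  set F' : Set (EuclideanSpace ℂ (Fin n)) := {y | y ∈ frontier W ∧ g (e z) - η₀ ≤ g y} with hF'
  have hF'c : IsCompact F' := by
    have h1 : IsClosed F' := by
      have h2 := hgc.preimage_isClosed_of_isClosed isClosed_frontier
        (isClosed_Ici (a := g (e z) - η₀))
      exact h2
    exact hF.of_isClosed_subset h1 fun y hy => hy.1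
  have hBpos : ∀ y ∈ F', 0 < B y := by
    intro y hy
    have h1 := htc hy.1
    simp only [mem_iUnion] at h1
    obtain ⟨x, hx, h2⟩ := h1
    rcases h2 with h2 | h2
    · exfalso
      have h3 := hη₀t x hx
      have h4 := hy.2
      linarith
    · exact lt_of_lt_of_le h2 (Finset.single_le_sum (f := fun x => b x y)
        (fun x hx => hb0 x (htF x hx) y) hx)
  obtain ⟨κ, hκ, hκB⟩ : ∃ κ : ℝ, 0 < κ ∧ ∀ y ∈ F', κ ≤ B y := by
    rcases F'.eq_empty_or_nonempty with h | h
    · exact ⟨1, one_pos, by simp [h]⟩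
    · obtain ⟨y₀, hy₀, hmin⟩ := hF'c.exists_isMinOn h
        (hBV.continuousOn.mono fun y hy => hKV (hFK hy.1))
      exact ⟨B y₀, hBpos y₀ hy₀, fun y hy => hmin hy⟩
  obtain ⟨R, hR⟩ := hK.bddAbove_image
    ((dsq_contDiff (e z)).continuous.continuousOn (s := closure W))
  obtain ⟨G₀, hG₀⟩ := hF.bddAbove_image hgc
  have hR' : ∀ y ∈ closure W, dsq (e z) y ≤ max R 1 := fun y hy =>
    (hR (mem_image_of_mem _ hy)).trans (le_max_left _ _)
  set R' := max R 1 with hR'd
  have hR'1 : 0 < R' := lt_of_lt_of_le one_pos (le_max_right _ _)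
  set δ : ℝ := η₀ / (2 * R') with hδ
  have hδ0 : 0 < δ := by positivity
  have hδR : δ * R' = η₀ / 2 := by rw [hδ]; field_simp
  set N : ℝ := (|G₀| + |g (e z)| + 2 * η₀) / κ with hN
  have hN0 : 0 < N := by positivity
  have hNκ : N * κ = |G₀| + |g (e z)| + 2 * η₀ := by rw [hN]; field_simp
  set d : (EuclideanSpace ℂ (Fin n)) → ℝ := fun y => (g y + (-(g (e z) - η₀ / 2))) + (δ * dsq (e z) y + (-N) * B y) with hd
  have hdV : ContDiffOn ℝ ∞ d V :=
    (hg.add contDiffOn_const).add
      ((contDiffOn_const.mul (dsq_contDiff (e z)).contDiffOn).add (contDiffOn_const.mul hBV))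
  have hlevd : ∀ y ∈ closure W, ∀ v,
      levi d y v = levi g y v + (δ * ‖v‖ ^ 2 + (-N) * levi B y v) := by
    intro y hy v
    have hyV := hV.mem_nhds (hKV hy)
    have c1 : ContDiffAt ℝ 2 g y := (hg.contDiffAt hyV).of_le (by exact ENat.LEInfty.out)
    have c2 : ContDiffAt ℝ 2 B y := (hBV.contDiffAt hyV).of_le (by exact ENat.LEInfty.out)
    have c3 : ContDiffAt ℝ 2 (dsq (e z)) y :=
      (dsq_contDiff (e z)).contDiffAt.of_le (by exact ENat.LEInfty.out)
    have c4 : ContDiffAt ℝ 2 (fun _ : (EuclideanSpace ℂ (Fin n)) => -(g (e z) - η₀ / 2)) y := contDiffAt_const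
    rw [hd, levi_add (c1.add c4) ((contDiffAt_const.mul c3).add (contDiffAt_const.mul c2)),
      levi_add c1 c4, levi_const, levi_add (contDiffAt_const.mul c3) (contDiffAt_const.mul c2),
      levi_mul c3, levi_mul c2, dsq_levi]
    ring
  have hlev2 : ∀ y ∈ closure W, ∀ v, levi (fun x => N * Q (e.symm x)) y v =
      N * levi (fun x => Q (e.symm x)) y v := fun y hy v =>
    levi_mul (hQF.cda2 hΩ he (hKe y hy)) N v
  have htot : ∀ y ∈ closure W, ∀ v, δ * ‖v‖ ^ 2 ≤
      levi (fun x => N * Q (e.symm x)) y v + levi d y v := by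
    intro y hy v
    rw [hlevd y hy v, hlev2 y hy v]
    have h1 := hBl y hy v
    have h2 := hgp y (hKV hy) v
    have h3 := mul_le_mul_of_nonneg_left h1 hN0.le
    linarith
  refine not_core hΩ he hz hV hVe hW hK hKV hzW (Φ := fun p => N * Q p) (hQF.smul hΩ hN0.le)
    (d := d) hdV ?_ ?_ ?_ ?_ hzc
  · intro y hy
    have h1 := hR' y (hFK hy)
    have h2 : δ * dsq (e z) y ≤ η₀ / 2 := by
      rw [← hδR]
      exact mul_le_mul_of_nonneg_left h1 hδ0.le
    show (g y + (-(g (e z) - η₀ / 2))) + (δ * dsq (e z) y + (-N) * B y) < 0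
    by_cases hyF : g (e z) - η₀ ≤ g y
    · have h3 := mul_le_mul_of_nonneg_left (hκB y ⟨hy, hyF⟩) hN0.le
      rw [hNκ] at h3
      have h4 : g y ≤ G₀ := hG₀ (mem_image_of_mem g hy)
      have h5 := le_abs_self G₀
      have h6 := neg_abs_le (g (e z))
      linarith
    · push Not at hyF
      have h3 := mul_nonneg hN0.le (hB0 y)
      linarith
  · show 0 < (g (e z) + (-(g (e z) - η₀ / 2))) + (δ * dsq (e z) (e z) + (-N) * B (e z))
    rw [dsq_self, hBz]
    linarith
  · intro y hy v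
    exact le_trans (by positivity) (htot y hy v)
  · intro v hv
    refine lt_of_lt_of_le ?_ (htot (e z) (subset_closure hzW) v)
    have := norm_pos_iff.2 hv
    positivity

end Pool.Agent.H2.Core
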