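import Pool.Agent.H2.Core.Bounds

/-!
# The core of a domain in a complex manifold
-/

set_option autoImplicit false

open Filter Topology Set Metric
open scoped ContDiff Manifold

namespace Pool.Agent.H2.Core

variable {n : ℕ} {M : Type*} [TopologicalSpace M] [ChartedSpace (EuclideanSpace ℂ (Fin n)) M]


/-- `φ ∈ 𝓕(Ω)`: `φ` is a smooth plurisubharmonic function on `Ω` which is bounded from above. -/
structure MemF (Ω : Set M) (φ : M → ℝ) : Prop where
  smooth : ∀ e ∈ atlas (EuclideanSpace ℂ (Fin n)) M,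
    ContDiffOn ℝ ∞ (fun x => φ (e.symm x)) (e.target ∩ e.symm ⁻¹' Ω)
  psh : ∀ e ∈ atlas (EuclideanSpace ℂ (Fin n)) M, ∀ x ∈ e.target ∩ e.symm ⁻¹' Ω,
    ∀ v, 0 ≤ levi (fun x => φ (e.symm x)) x v
  bdd : ∃ C : ℝ, ∀ p ∈ Ω, φ p ≤ C

/-- `φ` is strictly plurisubharmonic at `z`: its Levi form at `z` is positive definite. -/
def StrictAt (φ : M → ℝ) (z : M) : Prop :=
  ∀ e ∈ atlas (EuclideanSpace ℂ (Fin n)) M, z ∈ e.source →
    ∀ v, v ≠ 0 → 0 < levi (fun x => φ (e.symm x)) (e z) v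

/-- The core of `Ω`. -/
def core (n : ℕ) {M : Type*} [TopologicalSpace M] [ChartedSpace (EuclideanSpace ℂ (Fin n)) M]
    (Ω : Set M) : Set M :=
  {z | z ∈ Ω ∧ ∀ φ : M → ℝ, MemF (n := n) Ω φ → ¬ StrictAt (n := n) φ z}

/-- The family `L` of the subsets of the core on which all functions of `𝓕(Ω)` are constant. -/
def InL (n : ℕ) {M : Type*} [TopologicalSpace M] [ChartedSpace (EuclideanSpace ℂ (Fin n)) M]
    (Ω l : Set M) : Prop :=
  l ⊆ core n Ω ∧ ∀ φ : M → ℝ, MemF (n := n) Ω φ → ∀ p ∈ l, ∀ q ∈ l, φ p = φ q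

/-! ### Elementary facts -/

omit [ChartedSpace (EuclideanSpace ℂ (Fin n)) M] in
theorem open_dom {Ω : Set M} (hΩ : IsOpen Ω) {e : OpenPartialHomeomorph M (EuclideanSpace ℂ (Fin n))} :
    IsOpen (e.target ∩ e.symm ⁻¹' Ω) := e.isOpen_inter_preimage_symm hΩ

theorem MemF.cda {Ω : Set M} (hΩ : IsOpen Ω) {φ : M → ℝ} (h : MemF (n := n) Ω φ)
    {e : OpenPartialHomeomorph M (EuclideanSpace ℂ (Fin n))} (he : e ∈ atlas (EuclideanSpace ℂ (Fin n)) M) {x : (EuclideanSpace ℂ (Fin n))}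
    (hx : x ∈ e.target ∩ e.symm ⁻¹' Ω) : ContDiffAt ℝ ∞ (fun x => φ (e.symm x)) x :=
  (h.smooth e he).contDiffAt ((open_dom hΩ).mem_nhds hx)

theorem MemF.cda2 {Ω : Set M} (hΩ : IsOpen Ω) {φ : M → ℝ} (h : MemF (n := n) Ω φ)
    {e : OpenPartialHomeomorph M (EuclideanSpace ℂ (Fin n))} (he : e ∈ atlas (EuclideanSpace ℂ (Fin n)) M) {x : (EuclideanSpace ℂ (Fin n))}
    (hx : x ∈ e.target ∩ e.symm ⁻¹' Ω) : ContDiffAt ℝ 2 (fun x => φ (e.symm x)) x :=
  (h.cda hΩ he hx).of_le (by exact ENat.LEInfty.out)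

theorem MemF.add {Ω : Set M} (hΩ : IsOpen Ω) {φ ψ : M → ℝ} (h1 : MemF (n := n) Ω φ)
    (h2 : MemF (n := n) Ω ψ) : MemF (n := n) Ω (fun p => φ p + ψ p) where
  smooth e he := (h1.smooth e he).add (h2.smooth e he)
  psh e he x hx v := by
    rw [levi_add (h1.cda2 hΩ he hx) (h2.cda2 hΩ he hx)]
    exact add_nonneg (h1.psh e he x hx v) (h2.psh e he x hx v)
  bdd := by
    obtain ⟨C, hC⟩ := h1.bdd
    obtain ⟨D, hD⟩ := h2.bdd
    exact ⟨C + D, fun p hp => add_le_add (hC p hp) (hD p hp)⟩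

theorem MemF.smul {Ω : Set M} (hΩ : IsOpen Ω) {φ : M → ℝ} (h1 : MemF (n := n) Ω φ) {c : ℝ}
    (hc : 0 ≤ c) : MemF (n := n) Ω (fun p => c * φ p) where
  smooth e he := contDiffOn_const.mul (h1.smooth e he)
  psh e he x hx v := by
    rw [levi_mul (h1.cda2 hΩ he hx)]
    exact mul_nonneg hc (h1.psh e he x hx v)
  bdd := by
    obtain ⟨C, hC⟩ := h1.bdd
    exact ⟨c * C, fun p hp => mul_le_mul_of_nonneg_left (hC p hp) hc⟩

theorem MemF.const (Ω : Set M) (c : ℝ) : MemF (n := n) Ω (fun _ => c) where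
  smooth e _ := contDiffOn_const
  psh e _ x _ v := by rw [levi_const]
  bdd := ⟨c, fun _ _ => le_rfl⟩

theorem MemF.sum {Ω : Set M} (hΩ : IsOpen Ω) {ι : Type*} (s : Finset ι) {φ : ι → M → ℝ}
    (h : ∀ i ∈ s, MemF (n := n) Ω (φ i)) : MemF (n := n) Ω (fun p => ∑ i ∈ s, φ i p) := by
  classical
  induction s using Finset.induction_on with
  | empty => simpa using MemF.const (n := n) Ω 0
  | insert a s ha ih =>
    have h1 := (h a (Finset.mem_insert_self a s)).add hΩ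
      (ih fun i hi => h i (Finset.mem_insert_of_mem hi))
    simpa [Finset.sum_insert ha] using h1

theorem MemF.exp {Ω : Set M} (hΩ : IsOpen Ω) {φ : M → ℝ} (h1 : MemF (n := n) Ω φ) :
    MemF (n := n) Ω (fun p => Real.exp (φ p)) where
  smooth e he := Real.contDiff_exp.comp_contDiffOn (h1.smooth e he)
  psh e he x hx v := by
    rw [levi_comp (m := Real.exp) (h1.cda2 hΩ he hx) Real.contDiff_exp.contDiffAt]
    simp only [Real.deriv_exp]
    have h2 := h1.psh e he x hx v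
    have h3 := dg_nonneg (fun x => φ (e.symm x)) x v
    have h4 := Real.exp_pos (φ (e.symm x))
    positivity
  bdd := by
    obtain ⟨C, hC⟩ := h1.bdd
    exact ⟨Real.exp C, fun p hp => Real.exp_le_exp.2 (hC p hp)⟩

/-! ### Change of charts -/

section charts

variable [IsManifold 𝓘(ℂ, EuclideanSpace ℂ (Fin n)) ω M]

theorem trans_cda' {e e' : OpenPartialHomeomorph M (EuclideanSpace ℂ (Fin n))} (he : e ∈ atlas (EuclideanSpace ℂ (Fin n)) M) (he' : e' ∈ atlas (EuclideanSpace ℂ (Fin n)) M)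
    {x : (EuclideanSpace ℂ (Fin n))} (hx : x ∈ e.target) (hx' : e.symm x ∈ e'.source) :
    ContDiffAt ℂ ω (fun y => e' (e.symm y)) x := by
  have h1 : e.symm ≫ₕ e' ∈ contDiffGroupoid ω 𝓘(ℂ, (EuclideanSpace ℂ (Fin n))) :=
    HasGroupoid.compatible he he'
  have h2 := contMDiffOn_of_mem_contDiffGroupoid h1
  rw [contMDiffOn_iff_contDiffOn] at h2
  have h3 : x ∈ (e.symm ≫ₕ e').source := by
    rw [OpenPartialHomeomorph.trans_source]
    exact ⟨hx, hx'⟩
  exact h2.contDiffAt ((e.symm ≫ₕ e').open_source.mem_nhds h3)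

theorem trans_cda {e e' : OpenPartialHomeomorph M (EuclideanSpace ℂ (Fin n))} (he : e ∈ atlas (EuclideanSpace ℂ (Fin n)) M) (he' : e' ∈ atlas (EuclideanSpace ℂ (Fin n)) M)
    {x : (EuclideanSpace ℂ (Fin n))} (hx : x ∈ e.target) (hx' : e.symm x ∈ e'.source) :
    ContDiffAt ℂ 2 (fun y => e' (e.symm y)) x :=
  (trans_cda' he he' hx hx').of_le (by exact le_top)

theorem levi_chart {e e' : OpenPartialHomeomorph M (EuclideanSpace ℂ (Fin n))} (he : e ∈ atlas (EuclideanSpace ℂ (Fin n)) M) (he' : e' ∈ atlas (EuclideanSpace ℂ (Fin n)) M)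
    {x : (EuclideanSpace ℂ (Fin n))} (hx : x ∈ e.target) (hx' : e.symm x ∈ e'.source) {φ : M → ℝ}
    (hφ : ContDiffAt ℝ 2 (fun y => φ (e'.symm y)) (e' (e.symm x))) (v : (EuclideanSpace ℂ (Fin n))) :
    levi (fun y => φ (e.symm y)) x v =
      levi (fun y => φ (e'.symm y)) (e' (e.symm x)) (fderiv ℂ (fun y => e' (e.symm y)) x v) := by
  have h1 : (fun y => φ (e.symm y)) =ᶠ[𝓝 x]
      fun y => (fun y => φ (e'.symm y)) ((fun y => e' (e.symm y)) y) := by
    have h2 : (e.symm ≫ₕ e').source ∈ 𝓝 x := by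
      apply (e.symm ≫ₕ e').open_source.mem_nhds
      rw [OpenPartialHomeomorph.trans_source]
      exact ⟨hx, hx'⟩
    filter_upwards [h2] with y hy
    rw [OpenPartialHomeomorph.trans_source] at hy
    rw [e'.left_inv hy.2]
  rw [levi_congr h1]
  exact levi_holo (g := fun y => φ (e'.symm y)) (H := fun y => e' (e.symm y)) hφ
    (trans_cda he he' hx hx') v

theorem trans_inj {e e' : OpenPartialHomeomorph M (EuclideanSpace ℂ (Fin n))} (he : e ∈ atlas (EuclideanSpace ℂ (Fin n)) M) (he' : e' ∈ atlas (EuclideanSpace ℂ (Fin n)) M)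
    {x : (EuclideanSpace ℂ (Fin n))} (hx : x ∈ e.target) (hx' : e.symm x ∈ e'.source) {v : (EuclideanSpace ℂ (Fin n))} (hv : v ≠ 0) :
    fderiv ℂ (fun y => e' (e.symm y)) x v ≠ 0 := by
  intro h0
  have h1 : (fun y => (fun t => e (e'.symm t)) ((fun y => e' (e.symm y)) y)) =ᶠ[𝓝 x] id := by
    have h2 : (e.symm ≫ₕ e').source ∈ 𝓝 x := by
      apply (e.symm ≫ₕ e').open_source.mem_nhds
      rw [OpenPartialHomeomorph.trans_source]
      exact ⟨hx, hx'⟩
    filter_upwards [h2] with y hy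
    rw [OpenPartialHomeomorph.trans_source] at hy
    rw [e'.left_inv hy.2]
    exact e.right_inv hy.1
  have hx2 : e' (e.symm x) ∈ e'.target := e'.map_source hx'
  have hx3 : e'.symm (e' (e.symm x)) ∈ e.source := by
    rw [e'.left_inv hx']
    exact e.map_target hx
  have d1 := (trans_cda he he' hx hx').differentiableAt (by norm_num)
  have d2 := (trans_cda he' he hx2 hx3).differentiableAt (by norm_num)
  have h3 := h1.fderiv_eq (𝕜 := ℂ)
  rw [fderiv_fun_comp x d2 d1, fderiv_id] at h3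
  have h4 := DFunLike.congr_fun h3 v
  rw [ContinuousLinearMap.comp_apply, h0, map_zero] at h4
  exact hv h4.symm

end charts

end Pool.Agent.H2.Core
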