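import Pool.Agent.H2.Core.Mfd

/-!
# Functions of `𝓕(Ω)` which dominate local functions
-/

set_option autoImplicit false

open Filter Topology Set Metric
open scoped ContDiff Manifold

namespace Pool.Agent.H2.Core

variable {n : ℕ} {M : Type*} [TopologicalSpace M] [ChartedSpace (EuclideanSpace ℂ (Fin n)) M]


/-- the part of the core which is not separated from `z` -/
def lev (n : ℕ) {M : Type*} [TopologicalSpace M] [ChartedSpace (EuclideanSpace ℂ (Fin n)) M]
    (Ω : Set M) (z : M) : Set M :=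
  {w | w ∈ core n Ω ∧ ∀ φ : M → ℝ, MemF (n := n) Ω φ → φ w = φ z}

theorem levi_sq_sub {g : (EuclideanSpace ℂ (Fin n)) → ℝ} {x : (EuclideanSpace ℂ (Fin n))} (hg : ContDiffAt ℝ 2 g x) (a : ℝ) (v : (EuclideanSpace ℂ (Fin n))) :
    levi (fun y => (g y - a) ^ 2) x v = 2 * dg g x v + 2 * (g x - a) * levi g x v := by
  have h1 : deriv (fun t : ℝ => (t - a) ^ 2) = fun t => 2 * (t - a) := by
    funext t
    have : HasDerivAt (fun t : ℝ => (t - a) ^ 2) (2 * (t - a)) t := by
      have := ((hasDerivAt_id t).sub_const a).fun_pow 2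
      simpa using this
    exact this.deriv
  have h2 : deriv (fun t : ℝ => 2 * (t - a)) = fun _ => 2 := by
    funext t
    have : HasDerivAt (fun t : ℝ => 2 * (t - a)) 2 t := by
      have := ((hasDerivAt_id t).sub_const a).const_mul 2
      simpa using this
    exact this.deriv
  have h3 : ContDiffAt ℝ 2 (fun t : ℝ => (t - a) ^ 2) (g x) := by fun_prop
  rw [levi_comp (m := fun t : ℝ => (t - a) ^ 2) hg h3, h1, h2]

theorem pair {Ω : Set M} (hΩ : IsOpen Ω) {e : OpenPartialHomeomorph M (EuclideanSpace ℂ (Fin n))} (he : e ∈ atlas (EuclideanSpace ℂ (Fin n)) M)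
    {z : M} (hz : z ∈ e.source) {K : Set (EuclideanSpace ℂ (Fin n))} (hK : IsCompact K)
    (hKV : K ⊆ e.target ∩ e.symm ⁻¹' Ω) {x₁ : (EuclideanSpace ℂ (Fin n))} (hx₁ : x₁ ∈ e.target ∩ e.symm ⁻¹' Ω)
    (hne : x₁ ≠ e z) (hlev : e.symm x₁ ∉ lev n Ω z) :
    ∃ (Ψ : M → ℝ) (b : (EuclideanSpace ℂ (Fin n)) → ℝ), MemF (n := n) Ω Ψ ∧
      ContDiffOn ℝ ∞ b (e.target ∩ e.symm ⁻¹' Ω) ∧ (∀ x, 0 ≤ b x) ∧ b (e z) = 0 ∧ 0 < b x₁ ∧
      ∀ x ∈ K, ∀ v, levi b x v ≤ levi (fun x => Ψ (e.symm x)) x v := by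
  have hV : IsOpen (e.target ∩ e.symm ⁻¹' Ω) := open_dom hΩ
  by_cases hcore : e.symm x₁ ∈ core n Ω
  · -- a function that separates
    have h1 : ∃ φ : M → ℝ, MemF (n := n) Ω φ ∧ φ (e.symm x₁) ≠ φ z := by
      by_contra hcon
      push Not at hcon
      exact hlev ⟨hcore, hcon⟩
    obtain ⟨φ, hφ, hφne⟩ := h1
    set h : (EuclideanSpace ℂ (Fin n)) → ℝ := fun x => φ (e.symm x) with hh
    have hsm : ContDiffOn ℝ ∞ h (e.target ∩ e.symm ⁻¹' Ω) := hφ.smooth e he
    have hbd : ∃ R : ℝ, 0 ≤ R ∧ ∀ x ∈ K, |h x| ≤ R := by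
      have h2 : ContinuousOn (fun x => |h x|) K := (hsm.continuousOn.mono hKV).abs
      obtain ⟨R, hR⟩ := hK.bddAbove_image h2
      exact ⟨max R 0, le_max_right _ _, fun x hx =>
        (hR (mem_image_of_mem (fun x => |h x|) hx)).trans (le_max_left _ _)⟩
    obtain ⟨R, hR0, hR⟩ := hbd
    set a : ℝ := φ z with ha
    set C : ℝ := 2 * (1 + R + |a|) * Real.exp R with hC
    have hC0 : 0 ≤ C := by positivity
    refine ⟨fun p => C * Real.exp (φ p), fun x => (h x - a) ^ 2, (hφ.exp hΩ).smul hΩ hC0,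
      (hsm.sub contDiffOn_const).pow 2, fun x => sq_nonneg _, ?_, ?_, ?_⟩
    · show (φ (e.symm (e z)) - a) ^ 2 = 0
      rw [e.left_inv hz]
      simp [ha]
    · have h2 : h x₁ - a ≠ 0 := sub_ne_zero.2 hφne
      positivity
    · intro x hx v
      have hx2 : ContDiffAt ℝ 2 h x := hφ.cda2 hΩ he (hKV hx)
      have hx3 : ContDiffAt ℝ 2 (fun y => Real.exp (h y)) x := hx2.exp
      rw [levi_sq_sub hx2 a v]
      show _ ≤ levi (fun y => C * Real.exp (h y)) x v
      rw [levi_mul hx3, levi_comp (m := Real.exp) hx2 Real.contDiff_exp.contDiffAt]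
      simp only [Real.deriv_exp]
      have h3 := hφ.psh e he x (hKV hx) v
      have h4 := dg_nonneg h x v
      have h5 : 1 ≤ Real.exp R * Real.exp (h x) := by
        rw [← Real.exp_add]
        apply Real.one_le_exp
        linarith [(abs_le.1 (hR x hx)).1]
      have h6 : 2 * (1 + R + |a|) ≤ C * Real.exp (h x) := by
        rw [hC]
        have : 0 ≤ 2 * (1 + R + |a|) := by positivity
        nlinarith
      have h7 : h x - a ≤ R + |a| := by
        have := (abs_le.1 (hR x hx)).2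
        have := neg_abs_le a
        linarith
      have h8 : 0 ≤ R + |a| := by positivity
      have h9 : 2 * dg h x v ≤ C * Real.exp (h x) * dg h x v :=
        mul_le_mul_of_nonneg_right (by linarith) h4
      have h10 : 2 * (h x - a) * levi h x v ≤ C * Real.exp (h x) * levi h x v :=
        mul_le_mul_of_nonneg_right (by linarith) h3
      linarith
  · -- a strictly plurisubharmonic function and a bump
    have h1 : ∃ χ : M → ℝ, MemF (n := n) Ω χ ∧ StrictAt (n := n) χ (e.symm x₁) := by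
      by_contra hcon
      push Not at hcon
      exact hcore ⟨hx₁.2, hcon⟩
    obtain ⟨χ, hχ, hst⟩ := h1
    have hst' := hst e he (e.map_target hx₁.1)
    rw [e.right_inv hx₁.1] at hst'
    have hsm : ContDiffOn ℝ ∞ (fun x => χ (e.symm x)) (e.target ∩ e.symm ⁻¹' Ω) := hχ.smooth e he
    obtain ⟨c, hc, s, hs, hsV, hlow⟩ := strict_nbhd hV (hsm.of_le (by exact ENat.LEInfty.out)) hx₁
      hst'
    have hdist : 0 < dist (e z) x₁ := dist_pos.2 (Ne.symm hne)
    set s' : ℝ := min s (dist (e z) x₁) with hs'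
    have hs'0 : 0 < s' := lt_min hs hdist
    let θ : ContDiffBump x₁ := ⟨s' / 4, s' / 2, by linarith, by linarith⟩
    have hθ : ContDiff ℝ ∞ (θ : (EuclideanSpace ℂ (Fin n)) → ℝ) := θ.contDiff
    obtain ⟨Cθ, hCθ0, hCθ⟩ := levi_bound (V := univ) isOpen_univ
      (g := (θ : (EuclideanSpace ℂ (Fin n)) → ℝ)) (hθ.contDiffOn.of_le (by exact ENat.LEInfty.out)) hK (subset_univ _)
    refine ⟨fun p => (Cθ / c) * χ p, fun x => θ x, hχ.smul hΩ (by positivity), hθ.contDiffOn,
      fun x => θ.nonneg, ?_, ?_, ?_⟩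
    · apply θ.zero_of_le_dist
      have h2 : s' ≤ dist (e z) x₁ := min_le_right _ _
      show s' / 2 ≤ dist (e z) x₁
      linarith
    · have h2 : θ x₁ = 1 := θ.one_of_mem_closedBall (mem_closedBall_self (by positivity))
      show 0 < θ x₁
      rw [h2]
      exact one_pos
    · intro x hx v
      have hx2 : ContDiffAt ℝ 2 (fun y => χ (e.symm y)) x := hχ.cda2 hΩ he (hKV hx)
      rw [levi_mul hx2]
      by_cases hxs : x ∈ ball x₁ s
      · have h2 := hlow x hxs v
        have h3 := (le_abs_self _).trans (hCθ x hx v)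
        calc levi (fun x => θ x) x v ≤ Cθ * ‖v‖ ^ 2 := h3
          _ = Cθ / c * (c * ‖v‖ ^ 2) := by field_simp
          _ ≤ Cθ / c * levi (fun y => χ (e.symm y)) x v :=
            mul_le_mul_of_nonneg_left h2 (by positivity)
      · have h2 : (fun x => θ x) =ᶠ[𝓝 x] fun _ => (0:ℝ) := by
          have h3 : ∀ᶠ y in 𝓝 x, s' / 2 < dist y x₁ := by
            apply (continuous_id.dist continuous_const).continuousAt.eventually_const_lt
            have h4 : s ≤ dist x x₁ := not_lt.1 hxs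
            have h5 : s' ≤ s := min_le_left _ _
            show s' / 2 < dist x x₁
            linarith
          filter_upwards [h3] with y hy
          exact θ.zero_of_le_dist hy.le
        rw [levi_congr h2, levi_zero]
        exact mul_nonneg (by positivity) (hχ.psh e he x (hKV hx) v)

end Pool.Agent.H2.Core
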